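import Mathlib

set_option autoImplicit false

namespace Pool.Agent.Results.MP_23a291_gt.Hyper

open Set Filter Topology

variable (X : Type*) [TopologicalSpace X]

/-- A sequence of open covers. -/
def Covers (U : ℕ → Set (Set X)) : Prop := ∀ n, (∀ O ∈ U n, IsOpen O) ∧ ⋃₀ U n = univ

/-- A selection of finite subfamilies. -/
def Selection {X : Type*} (U V : ℕ → Set (Set X)) : Prop := ∀ n, (V n).Finite ∧ V n ⊆ U n

/-- Almost Scheepers. -/
def AlmostScheepers : Prop := ∀ U, Covers X U → ∃ V, Selection U V ∧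
  ∀ F : Set X, F.Finite → {n | F ⊆ closure (⋃₀ V n)}.Infinite

/-- Weakly Scheepers. -/
def WeaklyScheepers : Prop := ∀ U, Covers X U → ∃ V, Selection U V ∧
  ∀ G : Set (Set X), G.Finite → (∀ O ∈ G, IsOpen O ∧ O.Nonempty) →
    {n | ∀ O ∈ G, (O ∩ ⋃₀ V n).Nonempty}.Infinite

/-- Weakly Scheepers in the sense of Kocinac. -/
def WeaklyScheepersK : Prop := ∀ U, Covers X U → ∃ (Y : Set X) (V : ℕ → Set (Set X)),
  Dense Y ∧ Selection U V ∧ ∀ F : Set X, F.Finite → F ⊆ Y → {n | F ⊆ ⋃₀ V n}.Infinite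

def B : Type := ℕ → ℕ

def Big (S : Set B) : Prop :=
  ∃ (N : ℕ) (g : ℕ → ℕ), ∀ f : B, (∀ n < N, f n = 0) → (∀ᶠ n in atTop, g n < f n) → f ∈ S

lemma Big.inter {S T : Set B} (hS : Big S) (hT : Big T) : Big (S ∩ T) := by
  obtain ⟨N, g, h⟩ := hS
  obtain ⟨N', g', h'⟩ := hT
  refine ⟨max N N', fun n => max (g n) (g' n), fun f h1 h2 => ⟨h f (fun n hn => h1 n (by omega)) ?_,
    h' f (fun n hn => h1 n (by omega)) ?_⟩⟩
  · exact h2.mono fun n hn => (le_max_left _ _).trans_lt hn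
  · exact h2.mono fun n hn => (le_max_right _ _).trans_lt hn

lemma Big.nonempty {S : Set B} (hS : Big S) : S.Nonempty := by
  obtain ⟨N, g, h⟩ := hS
  refine ⟨fun n => if n < N then 0 else g n + 1, h _ (fun n hn => if_pos hn) ?_⟩
  filter_upwards [eventually_ge_atTop N] with n hn
  show g n < if n < N then 0 else g n + 1
  rw [if_neg (by omega)]; omega

instance : TopologicalSpace B where
  IsOpen S := S.Nonempty → Big S
  isOpen_univ := fun _ => ⟨0, 0, fun _ _ _ => trivial⟩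
  isOpen_inter := fun _ _ hs ht h => (hs (h.mono inter_subset_left)).inter (ht (h.mono inter_subset_right))
  isOpen_sUnion := by
    rintro S hS ⟨x, W, hW, hx⟩
    obtain ⟨N, g, h⟩ := hS W hW ⟨x, hx⟩
    exact ⟨N, g, fun f a b => ⟨W, hW, h f a b⟩⟩

lemma dense_of {S : Set B} (hS : IsOpen S) (h : S.Nonempty) : Dense S :=
  dense_iff_inter_open.2 fun _ hU hn => ((hU hn).inter (hS h)).nonempty

lemma sel {U : ℕ → Set (Set B)} (hU : Covers B U) : ∃ V, Selection U V ∧ ∀ n, Dense (⋃₀ V n) := by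
  have : ∀ n, ∃ O ∈ U n, (fun _ => 0 : B) ∈ O := fun n => by
    have : (fun _ => 0 : B) ∈ ⋃₀ U n := (hU n).2 ▸ mem_univ _
    exact this
  choose O h1 h2 using this
  refine ⟨fun n => {O n}, fun n => ⟨finite_singleton _, singleton_subset_iff.2 (h1 n)⟩, fun n => ?_⟩
  rw [sUnion_singleton]
  exact dense_of ((hU n).1 _ (h1 n)) ⟨_, h2 n⟩

theorem result : ∃ (X : Type) (_ : TopologicalSpace X), T1Space X ∧
    AlmostScheepers X ∧ WeaklyScheepers X ∧ ¬ WeaklyScheepersK X := by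
  refine ⟨B, inferInstance, ⟨fun f => ⟨fun _ => ⟨0, f, fun h _ hh e => ?_⟩⟩⟩, fun U hU => ?_,
    fun U hU => ?_, fun h => ?_⟩
  · obtain ⟨n, hn⟩ := hh.exists
    rw [mem_singleton_iff.1 e] at hn
    exact lt_irrefl _ hn
  · obtain ⟨V, h1, h2⟩ := sel hU
    refine ⟨V, h1, fun F _ => infinite_univ.mono fun n _ => ?_⟩
    show F ⊆ _
    rw [(h2 n).closure_eq]
    exact subset_univ _
  · obtain ⟨V, h1, h2⟩ := sel hU
    exact ⟨V, h1, fun G _ hG => infinite_univ.mono fun n _ O hO =>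
      (h2 n).inter_open_nonempty O (hG O hO).1 (hG O hO).2⟩
  · obtain ⟨Y, V, hY, hV, hF⟩ := h (fun n => range fun k : ℕ => {f : B | f n ≤ k}) (fun n => ⟨by
      rintro _ ⟨k, rfl⟩ -
      exact ⟨n + 1, 0, fun f hf _ => (hf n (by omega)).trans_le (Nat.zero_le _)⟩,
      eq_univ_of_forall fun f => ⟨_, ⟨f n, rfl⟩, le_refl (f n)⟩⟩)
    have : ∀ n, ∃ k, ∀ f ∈ ⋃₀ V n, f n ≤ k := by
      intro n
      choose c hc using fun W : V n => (hV n).2 W.2
      haveI := (hV n).1.to_subtype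
      obtain ⟨k, hk⟩ := (finite_range c).bddAbove
      refine ⟨k, ?_⟩
      rintro f ⟨W, hW, hf⟩
      have e := hc ⟨W, hW⟩
      simp only at e
      rw [← e] at hf
      exact le_trans hf (hk ⟨⟨W, hW⟩, rfl⟩)
    choose g hg using this
    have ho : IsOpen {f : B | ∀ᶠ n in atTop, g n < f n} := fun _ => ⟨0, g, fun _ _ h => h⟩
    obtain ⟨f, hf, hfY⟩ := hY.inter_open_nonempty _ ho
      ⟨fun n => g n + 1, Eventually.of_forall fun n => Nat.lt_succ_self _⟩
    apply hF {f} (finite_singleton _) (singleton_subset_iff.2 hfY)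
    rw [mem_ofPred_eq, ← Nat.cofinite_eq_atTop, eventually_cofinite] at hf
    exact hf.subset fun n hn => not_lt.2 (hg n f (hn (mem_singleton f)))

end Pool.Agent.Results.MP_23a291_gt.Hyper
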